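import Pool.Agent.W598.IA.Stm

/-!
# The preimage of a nonabelian normal subgroup is not metabelian (task IA-NONMET)
-/

set_option autoImplicit false

namespace Pool.Agent.W947.IA.NonMet

open Pool.Agent.W598.IA

/-- consequences of `(p, q) X = (p, q)`, `det X = 1` for `p ≠ 0` -/
lemma param {a b c d p q : ℤ} (hp : p ≠ 0) (hdet : a * d - b * c = 1)
    (h0 : p * a + q * c = p) (h1 : p * b + q * d = q) :
    p * (a - 1) = -(q * c) ∧ p ^ 2 * b = -(q ^ 2 * c) ∧ a - 1 = -(d - 1) := by
  have e1 : p * (a - 1) = -(q * c) := by linarith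
  have e2 : p * b = -(q * (d - 1)) := by linarith
  have e3 : p * ((a - 1) * (d - 1) - b * c) = 0 := by
    linear_combination (d - 1) * e1 - c * e2
  have e4 : (a - 1) * (d - 1) - b * c = 0 := by
    rcases mul_eq_zero.mp e3 with h | h
    · exact absurd h hp
    · exact h
  have e5 : a - 1 = -(d - 1) := by linear_combination hdet - e4
  refine ⟨e1, ?_, e5⟩
  have e6 : p * (d - 1) = q * c := by linear_combination -e1 + p * e5
  linear_combination p * e2 - q * e6

lemma comm_of_fix (X Y : S2) (p q : ℤ) (h : p ≠ 0 ∨ q ≠ 0)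
    (hX0 : p * X.1 0 0 + q * X.1 1 0 = p) (hX1 : p * X.1 0 1 + q * X.1 1 1 = q)
    (hY0 : p * Y.1 0 0 + q * Y.1 1 0 = p) (hY1 : p * Y.1 0 1 + q * Y.1 1 1 = q) :
    X * Y = Y * X := by
  have dX : X.1 0 0 * X.1 1 1 - X.1 0 1 * X.1 1 0 = 1 := by
    have := X.2
    rwa [Matrix.det_fin_two] at this
  have dY : Y.1 0 0 * Y.1 1 1 - Y.1 0 1 * Y.1 1 0 = 1 := by
    have := Y.2
    rwa [Matrix.det_fin_two] at this
  set a := X.1 0 0 with ha
  set b := X.1 0 1 with hb
  set c := X.1 1 0 with hc
  set d := X.1 1 1 with hd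
  set a' := Y.1 0 0 with ha'
  set b' := Y.1 0 1 with hb'
  set c' := Y.1 1 0 with hc'
  set d' := Y.1 1 1 with hd'
  have key : b * c' = b' * c ∧ a * b' + b * d' = a' * b + b' * d ∧
      c * a' + d * c' = c' * a + d' * c := by
    by_cases hp : p = 0
    · subst hp
      have hq : q ≠ 0 := by
        rcases h with h | h
        · exact absurd rfl h
        · exact h
      have c0 : c = 0 := by
        have : q * c = 0 := by linarith
        exact (mul_eq_zero.mp this).resolve_left hq
      have c0' : c' = 0 := by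
        have : q * c' = 0 := by linarith
        exact (mul_eq_zero.mp this).resolve_left hq
      have d1 : d = 1 := by
        have : q * (d - 1) = 0 := by linarith
        have := (mul_eq_zero.mp this).resolve_left hq
        linarith
      have d1' : d' = 1 := by
        have : q * (d' - 1) = 0 := by linarith
        have := (mul_eq_zero.mp this).resolve_left hq
        linarith
      rw [c0, d1] at dX
      rw [c0', d1'] at dY
      have a1 : a = 1 := by linarith
      have a1' : a' = 1 := by linarith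
      rw [c0, c0', d1, d1', a1, a1']
      refine ⟨by ring, by ring, by ring⟩
    · obtain ⟨e1, e2, e3⟩ := param hp dX hX0 hX1
      obtain ⟨f1, f2, f3⟩ := param hp dY hY0 hY1
      have p2 : p ^ 2 ≠ 0 := pow_ne_zero 2 hp
      have p3 : p ^ 3 ≠ 0 := pow_ne_zero 3 hp
      refine ⟨?_, ?_, ?_⟩
      · apply mul_left_cancel₀ p2
        linear_combination c' * e2 - c * f2
      · apply mul_left_cancel₀ p3
        have h1 : p ^ 3 * ((a - 1) * b' - (a' - 1) * b) = 0 := by
          linear_combination p ^ 2 * b' * e1 - q * c * f2 - p ^ 2 * b * f1 + q * c' * e2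
        linear_combination 2 * h1 - p ^ 3 * b' * e3 + p ^ 3 * b * f3
      · apply mul_left_cancel₀ hp
        have h1 : p * (c * (a' - 1) - c' * (a - 1)) = 0 := by
          linear_combination c * f1 - c' * e1
        linear_combination 2 * h1 + p * c' * e3 - p * c * f3
  obtain ⟨k1, k2, k3⟩ := key
  apply Matrix.SpecialLinearGroup.ext
  intro i j
  fin_cases i <;> fin_cases j <;>
    simp only [Matrix.SpecialLinearGroup.coe_mul, Matrix.mul_apply, Fin.sum_univ_two,
      Fin.zero_eta, Fin.mk_one, Fin.isValue]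
  · show a * a' + b * c' = a' * a + b' * c
    linear_combination k1
  · show a * b' + b * d' = a' * b + b' * d
    linear_combination k2
  · show c * a' + d * c' = c' * a + d' * c
    linear_combination k3
  · show c * b' + d * d' = c' * b + d' * d
    linear_combination -k1

theorem main : S_NONMET := by
  intro F _ ρ hρ N _ ⟨x0, hx0, y0, hy0, hne⟩
  by_contra hcon
  push Not at hcon
  set c : F := cm x0 y0 with hc
  have hcN : c ∈ N := by
    rw [hc]
    exact N.mul_mem (N.mul_mem (N.mul_mem hx0 hy0) (N.inv_mem hx0)) (N.inv_mem hy0)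
  have hc1 : c ≠ 1 := by
    intro h
    apply hne
    have h2 : x0 * y0 * x0⁻¹ * y0⁻¹ = 1 := h
    calc x0 * y0 = (x0 * y0 * x0⁻¹ * y0⁻¹) * (y0 * x0) := by group
      _ = y0 * x0 := by rw [h2, one_mul]
  have hC1 : ρ c ≠ 1 := by
    intro h
    exact hc1 (hρ (by rw [h, map_one]))
  -- the identity for all `n ∈ N`
  have key : ∀ n ∈ N, ∀ a : Z2, lin (ρ c) (a - lin (ρ n) a) = a - lin (ρ n) a := by
    intro n hn a
    have h := hcon (⟨x0, 0⟩ : SD ρ) (by simpa using hx0) ⟨y0, 0⟩ (by simpa using hy0) ⟨1, a⟩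
      (by simp) ⟨n, 0⟩ (by simpa using hn)
    have h2 := congrArg SD.t h
    simp only [cm, SD.mul_l, SD.mul_t, SD.inv_l, SD.inv_t, SD.one_t, lin_zero, neg_zero, add_zero,
      zero_add, one_mul, inv_one, mul_one, map_one, lin_one] at h2
    have hcc : x0 * y0 * x0⁻¹ * y0⁻¹ = c := rfl
    rw [hcc] at h2
    simp only [lin_neg, ← sub_eq_add_neg, mul_inv_cancel] at h2
    simp only [inv_one, map_one, lin_one, mul_one, mul_inv_cancel] at h2
    exact sub_eq_zero.mp h2
  -- a nonzero row of `ρ c - 1`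
  have hrow : ∀ i : Fin 2, ∀ n ∈ N, ∀ j : Fin 2,
      ((ρ c).1 i 0 - (1 : Matrix (Fin 2) (Fin 2) ℤ) i 0) * (ρ n).1 0 j +
      ((ρ c).1 i 1 - (1 : Matrix (Fin 2) (Fin 2) ℤ) i 1) * (ρ n).1 1 j =
      (ρ c).1 i j - (1 : Matrix (Fin 2) (Fin 2) ℤ) i j := by
    intro i n hn j
    have h := congrFun (key n hn (Pi.single j 1)) i
    fin_cases i <;> fin_cases j <;>
      simp [lin, Matrix.mulVec, dotProduct, Fin.sum_univ_two, Matrix.one_apply] at h ⊢ <;>
      linarith
  have hex : ∃ i : Fin 2, (ρ c).1 i 0 - (1 : Matrix (Fin 2) (Fin 2) ℤ) i 0 ≠ 0 ∨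
      (ρ c).1 i 1 - (1 : Matrix (Fin 2) (Fin 2) ℤ) i 1 ≠ 0 := by
    by_contra hno
    push Not at hno
    apply hC1
    apply Matrix.SpecialLinearGroup.ext
    intro i j
    have h := hno i
    fin_cases j
    · exact sub_eq_zero.mp h.1
    · exact sub_eq_zero.mp h.2
  obtain ⟨i, hi⟩ := hex
  have hcomm := comm_of_fix (ρ x0) (ρ y0) _ _ hi (hrow i x0 hx0 0) (hrow i x0 hx0 1)
    (hrow i y0 hy0 0) (hrow i y0 hy0 1)
  rw [← map_mul, ← map_mul] at hcomm
  exact hne (hρ hcomm)

end Pool.Agent.W947.IA.NonMet
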