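import Pool.Agent.W598.IA.Stm
import Pool.Agent.Helper270.WPB

/-!
# A finitely presented group with undecidable word problem, with many relators (task IA-WORD)
-/

set_option autoImplicit false

namespace Pool.Agent.W947.IA.Word

open Pool.Agent.W598.IA

/-- the inclusion -/
def inc (m : ℕ) : FreeGroup (Fin m) →* FreeGroup (Fin (m + 2)) := FreeGroup.map (Fin.castAdd 2)

/-- the retraction -/
def ret (m : ℕ) : FreeGroup (Fin (m + 2)) →* FreeGroup (Fin m) :=
  FreeGroup.lift (Fin.addCases (fun i => FreeGroup.of i) fun _ => 1)

lemma ret_inc (m : ℕ) (g : FreeGroup (Fin m)) : ret m (inc m g) = g := by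
  have h : (ret m).comp (inc m) = MonoidHom.id _ := by
    apply FreeGroup.ext_hom
    intro i
    simp [ret, inc]
  exact DFunLike.congr_fun h g

lemma ret_new (m : ℕ) (i : Fin 2) : ret m (FreeGroup.of (Fin.natAdd m i)) = 1 := by
  simp [ret]

lemma not_comm {α : Type} [DecidableEq α] (a b : α) (h : a ≠ b) :
    (FreeGroup.of a : FreeGroup α) * FreeGroup.of b ≠ FreeGroup.of b * FreeGroup.of a := by
  intro he
  have h2 := congrArg (FreeGroup.lift fun i : α =>
    if i = a then (Equiv.swap 0 1 : Equiv.Perm (Fin 3)) else Equiv.swap 1 2) he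
  simp only [map_mul, FreeGroup.lift_apply_of, if_true, if_neg h.symm] at h2
  revert h2
  decide

theorem main : S_WORD := by
  classical
  obtain ⟨m, R, W, hW, hund⟩ := Pool.Agent.Helper270.WP.word_problem
  set y : FreeGroup (Fin (m + 2)) := FreeGroup.of (Fin.natAdd m 0) with hy
  set z : FreeGroup (Fin (m + 2)) := FreeGroup.of (Fin.natAdd m 1) with hz
  set R' : Finset (FreeGroup (Fin (m + 2))) := R.image (inc m) ∪ {y, z} with hR'
  have hyR : y ∈ Subgroup.normalClosure (R' : Set (FreeGroup (Fin (m + 2)))) :=
    Subgroup.subset_normalClosure (by simp [hR'])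
  have hzR : z ∈ Subgroup.normalClosure (R' : Set (FreeGroup (Fin (m + 2)))) :=
    Subgroup.subset_normalClosure (by simp [hR'])
  have hiff : ∀ g : FreeGroup (Fin m),
      inc m g ∈ Subgroup.normalClosure (R' : Set (FreeGroup (Fin (m + 2)))) ↔
        g ∈ Subgroup.normalClosure (R : Set (FreeGroup (Fin m))) := by
    intro g
    constructor
    · intro h
      have hle : Subgroup.normalClosure (R' : Set (FreeGroup (Fin (m + 2)))) ≤
          (Subgroup.normalClosure (R : Set (FreeGroup (Fin m)))).comap (ret m) := by
        apply Subgroup.normalClosure_le_normal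
        intro x hx
        rw [Finset.mem_coe, hR', Finset.mem_union, Finset.mem_image] at hx
        rw [SetLike.mem_coe, Subgroup.mem_comap]
        rcases hx with ⟨r, hr, rfl⟩ | hx
        · rw [ret_inc]
          exact Subgroup.subset_normalClosure hr
        · rw [Finset.mem_insert, Finset.mem_singleton] at hx
          rcases hx with rfl | rfl
          · rw [hy, ret_new]
            exact Subgroup.one_mem _
          · rw [hz, ret_new]
            exact Subgroup.one_mem _
      have h2 := hle h
      rwa [Subgroup.mem_comap, ret_inc] at h2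
    · intro h
      have hle : Subgroup.normalClosure (R : Set (FreeGroup (Fin m))) ≤
          (Subgroup.normalClosure (R' : Set (FreeGroup (Fin (m + 2))))).comap (inc m) := by
        apply Subgroup.normalClosure_le_normal
        intro x hx
        rw [SetLike.mem_coe, Subgroup.mem_comap]
        apply Subgroup.subset_normalClosure
        rw [Finset.mem_coe, hR', Finset.mem_union, Finset.mem_image]
        exact Or.inl ⟨x, hx, rfl⟩
      exact hle h
  refine ⟨m + 1, R', fun n => (W n).map fun p => (Fin.castAdd 2 p.1, p.2), by omega, ?_,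
    ⟨y, hyR, z, hzR, ?_⟩, ?_⟩
  · have hf : Primrec fun p : Fin m × Bool => ((Fin.castAdd 2 p.1, p.2) : Fin (m + 2) × Bool) :=
      Primrec.dom_finite _
    have hmap : Primrec fun L : List (Fin m × Bool) =>
        L.map fun p => ((Fin.castAdd 2 p.1, p.2) : Fin (m + 2) × Bool) :=
      Primrec.list_map Primrec.id (hf.comp Primrec.snd)
    exact hmap.to_comp.comp hW
  · apply not_comm
    intro h
    have := congrArg Fin.val h
    simp at this
  · intro hc
    apply hund
    refine hc.of_eq fun n => ?_
    have h2 : FreeGroup.mk ((W n).map fun p => ((Fin.castAdd 2 p.1, p.2) : Fin (m + 2) × Bool)) =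
        inc m (FreeGroup.mk (W n)) := by
      unfold inc
      rw [FreeGroup.map.mk]
    show FreeGroup.mk ((W n).map fun p => ((Fin.castAdd 2 p.1, p.2) : Fin (m + 2) × Bool)) ∈ _ ↔ _
    rw [h2]
    exact hiff _

end Pool.Agent.W947.IA.Word
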